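import Pool.Agent.helper92.VT.Spec

set_option autoImplicit false

universe u

namespace Pool.Agent.helper92.VT

open MvPolynomial Pool.Agent.helper92.VC

private theorem SUB_avail {σ τ : Type} {k : Type u} [Field k] (θ : σ → MvPolynomial τ k)
    (l₀ : List (MvPolynomial τ k)) (hθ : ∀ s ∈ Set.range θ, Avail l₀ s) (l : List (MvPolynomial σ k))
    (a : MvPolynomial σ k) (h : Avail l a) : Avail (l.map (aeval θ) ++ l₀) (aeval θ a) := by
  rcases h with ⟨i, rfl⟩ | ⟨c, rfl⟩ | h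
  · rw [aeval_X]
    exact CST_mono _ (hθ _ ⟨i, rfl⟩)
  · rw [aeval_C]
    exact Or.inr (Or.inl ⟨c, rfl⟩)
  · exact Or.inr (Or.inr (List.mem_append_left _ (List.mem_map_of_mem h)))

private theorem SUB_slp {σ τ : Type} {k : Type u} [Field k] (θ : σ → MvPolynomial τ k)
    (l₀ : List (MvPolynomial τ k)) (h₀ : SLP l₀) (hθ : ∀ s ∈ Set.range θ, Avail l₀ s)
    (l : List (MvPolynomial σ k)) (h : SLP l) : SLP (l.map (aeval θ) ++ l₀) := by
  induction h with
  | nil => simpa using h₀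
  | add l a b _ ha hb ih =>
    rw [List.map_cons, List.cons_append, map_add]
    exact SLP.add _ _ _ ih (SUB_avail θ l₀ hθ l a ha) (SUB_avail θ l₀ hθ l b hb)
  | sub l a b _ ha hb ih =>
    rw [List.map_cons, List.cons_append, map_sub]
    exact SLP.sub _ _ _ ih (SUB_avail θ l₀ hθ l a ha) (SUB_avail θ l₀ hθ l b hb)
  | mul l a b _ ha hb ih =>
    rw [List.map_cons, List.cons_append, map_mul]
    exact SLP.mul _ _ _ ih (SUB_avail θ l₀ hθ l a ha) (SUB_avail θ l₀ hθ l b hb)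

theorem SUB : SUB_stmt.{u} := by
  intro σ τ k _ θ L Φ hΦ l₀ h₀ hθ
  obtain ⟨l, h1, h2, h3⟩ := hΦ
  refine ⟨l.map (aeval θ), SUB_slp θ l₀ h₀ hθ l h1, by rw [List.length_map]; exact h2, ?_⟩
  intro t ht
  rw [Set.mem_singleton_iff.1 ht]
  exact SUB_avail θ l₀ hθ l Φ h3

end Pool.Agent.helper92.VT
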